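import Pool.Agent.H32.RK.TargetsA

/-!
Pairs of quadratic forms over number fields (`MP_63b6b1_nt`): multiplicativity of the number of
primitive zeros (CRT).
-/

set_option autoImplicit false

open Finset NumberField Pool.Agent.H32.RQ Pool.Agent.H32.RK

namespace Pool.Agent.H61.RK

theorem qf_map {A B : Type} [CommRing A] [CommRing B] (φ : A →+* B) {s : ℕ}
    (f : Mon s → A) (x : Fin s → A) :
    φ (qf f x) = qf (fun p => φ (f p)) (fun j => φ (x j)) := by
  simp [qf, map_sum]

theorem qf_iso {A B C : Type} [CommRing A] [CommRing B] [CommRing C] (e : A ≃+* B × C) {s : ℕ}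
    (f : Mon s → A) (x : Fin s → A) :
    qf f x = 0 ↔ qf (fun p => (e (f p)).1) (fun j => (e (x j)).1) = 0 ∧
      qf (fun p => (e (f p)).2) (fun j => (e (x j)).2) = 0 := by
  have h1 : (e (qf f x)).1 = qf (fun p => (e (f p)).1) (fun j => (e (x j)).1) :=
    qf_map ((RingHom.fst B C).comp (e : A →+* B × C)) f x
  have h2 : (e (qf f x)).2 = qf (fun p => (e (f p)).2) (fun j => (e (x j)).2) :=
    qf_map ((RingHom.snd B C).comp (e : A →+* B × C)) f x
  rw [← h1, ← h2]
  constructor
  · intro h
    rw [h, map_zero]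
    exact ⟨rfl, rfl⟩
  · rintro ⟨h3, h4⟩
    have : e (qf f x) = 0 := Prod.ext h3 h4
    exact (map_eq_zero_iff e e.injective).1 this

theorem prm_iso {A B C : Type} [CommRing A] [CommRing B] [CommRing C] (e : A ≃+* B × C) {s : ℕ}
    (x : Fin s → A) :
    Prm x ↔ Prm (fun j => (e (x j)).1) ∧ Prm (fun j => (e (x j)).2) := by
  constructor
  · rintro ⟨a, ha⟩
    have h : e (∑ i, a i * x i) = 1 := by rw [ha, map_one]
    rw [map_sum] at h
    constructor
    · refine ⟨fun i => (e (a i)).1, ?_⟩
      have := congrArg Prod.fst h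
      rw [Prod.fst_sum] at this
      simpa using this
    · refine ⟨fun i => (e (a i)).2, ?_⟩
      have := congrArg Prod.snd h
      rw [Prod.snd_sum] at this
      simpa using this
  · rintro ⟨⟨a, ha⟩, ⟨b, hb⟩⟩
    refine ⟨fun i => e.symm (a i, b i), e.injective ?_⟩
    rw [map_sum, map_one]
    refine Prod.ext ?_ ?_
    · rw [Prod.fst_sum]
      simpa using ha
    · rw [Prod.snd_sum]
      simpa using hb

/-- (CRT) the densities are multiplicative. -/
theorem pf_CRT : T_CRT := by
  intro R S T _ _ _ _ _ _ e s F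
  unfold Pool.Agent.H32.RK.am
  rw [← Nat.card_prod]
  refine Nat.card_congr
    { toFun := fun x => (⟨fun j => (e (x.1 j)).1, ((prm_iso e x.1).1 x.2.1).1,
          fun i => ((qf_iso e (F i) x.1).1 (x.2.2 i)).1⟩,
        ⟨fun j => (e (x.1 j)).2, ((prm_iso e x.1).1 x.2.1).2,
          fun i => ((qf_iso e (F i) x.1).1 (x.2.2 i)).2⟩)
      invFun := fun q => ⟨fun j => e.symm (q.1.1 j, q.2.1 j), ?_, ?_⟩
      left_inv := ?_
      right_inv := ?_ }
  · refine (prm_iso e _).2 ⟨?_, ?_⟩
    · simpa using q.1.2.1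
    · simpa using q.2.2.1
  · intro i
    refine (qf_iso e (F i) _).2 ⟨?_, ?_⟩
    · simpa using q.1.2.2 i
    · simpa using q.2.2.2 i
  · intro x
    apply Subtype.ext
    funext j
    simp
  · intro q
    refine Prod.ext (Subtype.ext ?_) (Subtype.ext ?_)
    · funext j
      simp
    · funext j
      simp

end Pool.Agent.H61.RK
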