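import Pool.Agent.H70.RK.T2

set_option autoImplicit false

namespace Pool.Agent.H61.RK

open Finset Pool.Agent.H6.NB Pool.Agent.H70.OQ Pool.Agent.H78.XQ Pool.Agent.H70.RK
open Pool.Agent.H70.RC (Term DNF pv fv psat run Bad Arry Right RightP sec)

/-! ### Adaptive questions: basic facts -/

theorem adp_mono {V α : Type} {q : ((V → Bool) → Bool) → Prop} {c : ℕ} {g : (V → Bool) → α}
    (h : Adp q c g) : ∀ {c' : ℕ}, c ≤ c' → Adp q c' g := by
  induction h with
  | pure c a => intro c' _; exact Adp.pure c' a
  | ask c p g g0 g1 hp _ _ hg1 hg0 ih0 ih1 =>
    intro c' hc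
    obtain ⟨c'', rfl⟩ : ∃ c'', c' = c'' + 1 := ⟨c' - 1, by omega⟩
    exact Adp.ask c'' p g g0 g1 hp (ih0 (by omega)) (ih1 (by omega)) hg1 hg0

theorem adp_map {V α β : Type} {q : ((V → Bool) → Bool) → Prop} {c : ℕ} {g : (V → Bool) → α}
    (F : α → β) (h : Adp q c g) : Adp q c fun X => F (g X) := by
  induction h with
  | pure c a => exact Adp.pure c (F a)
  | ask c p g g0 g1 hp _ _ hg1 hg0 ih0 ih1 =>
    exact Adp.ask c p _ _ _ hp ih0 ih1 (fun X hX => by rw [hg1 X hX]) (fun X hX => by rw [hg0 X hX])

/-! ### The tree of a decision tree -/

section cvs

variable (U : List Bool → Prop) (bv : List Bool → Bool) (κ : List (List Bool × Bool))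

theorem cv_leaf (b : Bool) : cv U bv κ (.leaf b) = .leaf (some b) := by simp [cv]

theorem cv_out {w : List Bool} (l r : DT) (h : ¬ U w) :
    cv U bv κ (.node w l r) = if bv w then cv U bv κ r else cv U bv κ l := by
  simp [cv, h]

theorem cv_known {w : List Bool} (l r : DT) (h : U w) {b : Bool} (hb : κ.lookup w = some b) :
    cv U bv κ (.node w l r) = if b then cv U bv κ r else cv U bv κ l := by
  simp [cv, h, hb]

theorem cv_new {w : List Bool} (l r : DT) (h : U w) (hb : κ.lookup w = none) :
    cv U bv κ (.node w l r) =
      .node w (cv U bv ((w, false) :: κ) l) (cv U bv ((w, true) :: κ) r) := by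
  simp [cv, h, hb]

end cvs

theorem lookup_cons_ne {w w' : List Bool} {b : Bool} {κ : List (List Bool × Bool)}
    (h : ((w, b) :: κ).lookup w' = none) : w' ≠ w ∧ κ.lookup w' = none := by
  rw [List.lookup_cons] at h
  split at h
  · simp at h
  · rename_i h1
    refine ⟨?_, h⟩
    rintro rfl
    simp at h1

theorem cv_depth (U : List Bool → Prop) (bv : List Bool → Bool) (T : DT) :
    ∀ κ, (cv U bv κ T).depth ≤ T.depth := by
  induction T with
  | leaf b => intro κ; rw [cv_leaf]; exact le_refl _
  | node w l r ihl ihr =>
    intro κ
    have h1 : DT.depth (.node w l r) = max l.depth r.depth + 1 := rfl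
    have hl := le_max_left l.depth r.depth
    have hr := le_max_right l.depth r.depth
    by_cases hU : U w
    · cases hk : κ.lookup w with
      | some b =>
        rw [cv_known U bv κ l r hU hk]
        cases b
        · simp only [Bool.false_eq_true, if_false]; have := ihl κ; omega
        · simp only [if_true]; have := ihr κ; omega
      | none =>
        rw [cv_new U bv κ l r hU hk]
        have h2 : TR.depth (.node w (cv U bv ((w, false) :: κ) l) (cv U bv ((w, true) :: κ) r)) =
          max (cv U bv ((w, false) :: κ) l).depth (cv U bv ((w, true) :: κ) r).depth + 1 := rfl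
        rw [h2, h1]
        have := ihl ((w, false) :: κ)
        have := ihr ((w, true) :: κ)
        omega
    · rw [cv_out U bv κ l r hU]
      cases bv w
      · simp only [Bool.false_eq_true, if_false]; have := ihl κ; omega
      · simp only [if_true]; have := ihr κ; omega

theorem cv_walk (U : List Bool → Prop) (bv : List Bool → Bool) (T : DT) :
    ∀ κ π, (((cv U bv κ T).walk π).1.map Prod.fst).Nodup ∧
      (∀ w ∈ ((cv U bv κ T).walk π).1.map Prod.fst, κ.lookup w = none) ∧
      ((cv U bv κ T).walk π).2 ≠ some none := by
  induction T with
  | leaf b =>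
    intro κ π
    rw [cv_leaf]
    cases π <;> simp [TR.walk]
  | node w l r ihl ihr =>
    intro κ π
    by_cases hU : U w
    · cases hk : κ.lookup w with
      | some b =>
        rw [cv_known U bv κ l r hU hk]
        cases b
        · simp only [Bool.false_eq_true, if_false]; exact ihl κ π
        · simp only [if_true]; exact ihr κ π
      | none =>
        rw [cv_new U bv κ l r hU hk]
        cases π with
        | nil => simp [TR.walk]
        | cons b π =>
          have key : ∀ (b : Bool) (x : TR (List Bool)), ((x.walk π).1.map Prod.fst).Nodup ∧
              (∀ w' ∈ (x.walk π).1.map Prod.fst, ((w, b) :: κ).lookup w' = none) ∧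
              (x.walk π).2 ≠ some none →
              (((w, b) :: (x.walk π).1).map Prod.fst).Nodup ∧
              (∀ w' ∈ ((w, b) :: (x.walk π).1).map Prod.fst, κ.lookup w' = none) ∧
              (x.walk π).2 ≠ some none := by
            rintro b x ⟨h1, h2, h3⟩
            refine ⟨?_, ?_, h3⟩
            · rw [List.map_cons, List.nodup_cons]
              exact ⟨fun h => (lookup_cons_ne (h2 w h)).1 rfl, h1⟩
            · intro w' hw'
              rw [List.map_cons, List.mem_cons] at hw'
              rcases hw' with rfl | hw'
              · exact hk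
              · exact (lookup_cons_ne (h2 w' hw')).2
          cases b
          · exact key false _ (ihl ((w, false) :: κ) π)
          · exact key true _ (ihr ((w, true) :: κ) π)
    · rw [cv_out U bv κ l r hU]
      cases bv w
      · simp only [Bool.false_eq_true, if_false]; exact ihl κ π
      · simp only [if_true]; exact ihr κ π

theorem cv_on (U : List Bool → Prop) (bv : List Bool → Bool) (m : ℕ) (T : DT) :
    T.Short m → ∀ κ, (cv U bv κ T).On fun w => U w ∧ w.length ≤ m := by
  induction T with
  | leaf b => intro _ κ; rw [cv_leaf]; exact trivial
  | node w l r ihl ihr =>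
    rintro ⟨hw, hsl, hsr⟩ κ
    by_cases hU : U w
    · cases hk : κ.lookup w with
      | some b =>
        rw [cv_known U bv κ l r hU hk]
        cases b
        · simp only [Bool.false_eq_true, if_false]; exact ihl hsl κ
        · simp only [if_true]; exact ihr hsr κ
      | none =>
        rw [cv_new U bv κ l r hU hk]
        exact ⟨⟨hU, hw⟩, ihl hsl _, ihr hsr _⟩
    · rw [cv_out U bv κ l r hU]
      cases bv w
      · simp only [Bool.false_eq_true, if_false]; exact ihl hsl κ
      · simp only [if_true]; exact ihr hsr κ

theorem cv_eval (U : List Bool → Prop) (bv O : List Bool → Bool) (m : ℕ) (T : DT)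
    (hO : ∀ w : List Bool, w.length ≤ m → ¬ U w → O w = bv w) :
    T.Short m → ∀ κ : List (List Bool × Bool), (∀ w b, κ.lookup w = some b → O w = b) →
      (cv U bv κ T).eval O = some (T.eval O) := by
  induction T with
  | leaf b => intro _ κ _; rw [cv_leaf]; rfl
  | node w l r ihl ihr =>
    rintro ⟨hw, hsl, hsr⟩ κ hκ
    have h1 : DT.eval O (.node w l r) = if O w then r.eval O else l.eval O := rfl
    rw [h1]
    by_cases hU : U w
    · cases hk : κ.lookup w with
      | some b =>
        rw [cv_known U bv κ l r hU hk, hκ w b hk]
        cases b
        · simp only [Bool.false_eq_true, if_false]; exact ihl hsl κ hκ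
        · simp only [if_true]; exact ihr hsr κ hκ
      | none =>
        rw [cv_new U bv κ l r hU hk]
        have h2 : TR.eval O (.node w (cv U bv ((w, false) :: κ) l) (cv U bv ((w, true) :: κ) r)) =
          if O w then (cv U bv ((w, true) :: κ) r).eval O
            else (cv U bv ((w, false) :: κ) l).eval O := rfl
        rw [h2]
        have hκ' : ∀ w' b, ((w, O w) :: κ).lookup w' = some b → O w' = b := by
          intro w' b h
          by_cases hww : w' = w
          · subst hww
            rw [List.lookup_cons_self] at h
            exact Option.some.inj h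
          · rw [List.lookup_cons] at h
            have : (w' == w) = false := by simpa using hww
            rw [this] at h
            exact hκ w' b h
        cases hw2 : O w
        · rw [hw2] at hκ'
          simp only [Bool.false_eq_true, if_false]; exact ihl hsl _ hκ'
        · rw [hw2] at hκ'
          simp only [if_true]; exact ihr hsr _ hκ'
    · rw [cv_out U bv κ l r hU, hO w hw hU]
      cases bv w
      · simp only [Bool.false_eq_true, if_false]; exact ihl hsl κ hκ
      · simp only [if_true]; exact ihr hsr κ hκ

theorem cv_congr (U : List Bool → Prop) (bv bv' : List Bool → Bool) (m : ℕ) (T : DT)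
    (h : ∀ w : List Bool, w.length ≤ m → ¬ U w → bv w = bv' w) :
    T.Short m → ∀ κ, cv U bv κ T = cv U bv' κ T := by
  induction T with
  | leaf b => intro _ κ; rw [cv_leaf, cv_leaf]
  | node w l r ihl ihr =>
    rintro ⟨hw, hsl, hsr⟩ κ
    by_cases hU : U w
    · cases hk : κ.lookup w with
      | some b => rw [cv_known U bv κ l r hU hk, cv_known U bv' κ l r hU hk, ihl hsl, ihr hsr]
      | none => rw [cv_new U bv κ l r hU hk, cv_new U bv' κ l r hU hk, ihl hsl, ihr hsr]
    · rw [cv_out U bv κ l r hU, cv_out U bv' κ l r hU, ihl hsl, ihr hsr, h w hw hU]

theorem cv_wc {V : Type} (t : ℕ) (U : List Bool → Prop) (bv : (V → Bool) → List Bool → Bool)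
    (hbv : Lt bv) (T : DT) :
    ∀ κ, WC t 0 T.depth fun y => cv U (bv y) κ T := by
  induction T with
  | leaf b =>
    intro κ π
    have : (fun X : V → Bool => (cv U (bv X) κ (.leaf b)).walk π) =
        fun _ => (TR.leaf (some b)).walk π := by
      funext X; rw [cv_leaf]
    rw [this]
    exact Adp.pure _ _
  | node w l r ihl ihr =>
    intro κ π
    have h1 : DT.depth (.node w l r) = max l.depth r.depth + 1 := rfl
    have hl := le_max_left l.depth r.depth
    have hr := le_max_right l.depth r.depth
    by_cases hU : U w
    · cases hk : κ.lookup w with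
      | some b =>
        cases b
        · have : (fun X : V → Bool => (cv U (bv X) κ (.node w l r)).walk π) =
              fun X => (cv U (bv X) κ l).walk π := by
            funext X; rw [cv_known U (bv X) κ l r hU hk]; simp
          rw [this]
          exact adp_mono (ihl κ π) (by omega)
        · have : (fun X : V → Bool => (cv U (bv X) κ (.node w l r)).walk π) =
              fun X => (cv U (bv X) κ r).walk π := by
            funext X; rw [cv_known U (bv X) κ l r hU hk]; simp
          rw [this]
          exact adp_mono (ihr κ π) (by omega)
      | none =>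
        cases π with
        | nil =>
          have : (fun X : V → Bool => (cv U (bv X) κ (.node w l r)).walk []) =
              fun _ => ([], none) := by
            funext X; rw [cv_new U (bv X) κ l r hU hk]; rfl
          rw [this]
          exact Adp.pure _ _
        | cons b π =>
          cases b
          · have : (fun X : V → Bool => (cv U (bv X) κ (.node w l r)).walk (false :: π)) =
                fun X => (fun x : Term (List Bool) × Option (Option Bool) =>
                  ((w, false) :: x.1, x.2)) ((cv U (bv X) ((w, false) :: κ) l).walk π) := by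
              funext X; rw [cv_new U (bv X) κ l r hU hk]; rfl
            rw [this, h1]
            exact adp_mono (adp_map (fun x : Term (List Bool) × Option (Option Bool) =>
              ((w, false) :: x.1, x.2)) (ihl ((w, false) :: κ) π)) (by omega)
          · have : (fun X : V → Bool => (cv U (bv X) κ (.node w l r)).walk (true :: π)) =
                fun X => (fun x : Term (List Bool) × Option (Option Bool) =>
                  ((w, true) :: x.1, x.2)) ((cv U (bv X) ((w, true) :: κ) r).walk π) := by
              funext X; rw [cv_new U (bv X) κ l r hU hk]; rfl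
            rw [this, h1]
            exact adp_mono (adp_map (fun x : Term (List Bool) × Option (Option Bool) =>
              ((w, true) :: x.1, x.2)) (ihr ((w, true) :: κ) π)) (by omega)
    · rcases hbv w with ⟨b, hb⟩ | ⟨v, hv⟩
      · cases b
        · have : (fun X : V → Bool => (cv U (bv X) κ (.node w l r)).walk π) =
              fun X => (cv U (bv X) κ l).walk π := by
            funext X; rw [cv_out U (bv X) κ l r hU, hb]; simp
          rw [this]
          exact adp_mono (ihl κ π) (by omega)
        · have : (fun X : V → Bool => (cv U (bv X) κ (.node w l r)).walk π) =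
              fun X => (cv U (bv X) κ r).walk π := by
            funext X; rw [cv_out U (bv X) κ l r hU, hb]; simp
          rw [this]
          exact adp_mono (ihr κ π) (by omega)
      · rw [h1]
        refine Adp.ask _ (fun X => X v) _ (fun X => (cv U (bv X) κ l).walk π)
          (fun X => (cv U (bv X) κ r).walk π) ⟨v, fun X => rfl⟩
          (adp_mono (ihl κ π) (by omega)) (adp_mono (ihr κ π) (by omega)) ?_ ?_
        · intro X hX
          show (cv U (bv X) κ (.node w l r)).walk π = _
          rw [cv_out U (bv X) κ l r hU, hv, hX]; simp
        · intro X hX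
          show (cv U (bv X) κ (.node w l r)).walk π = _
          rw [cv_out U (bv X) κ l r hU, hv, hX]; simp

theorem pf_CVF : Pool.Agent.H70.RK.T_CVF := by
  intro U m T hT
  refine ⟨fun bv => ⟨cv_depth U bv T [], fun π => (cv_walk U bv T [] π).1,
    fun π => (cv_walk U bv T [] π).2.2, cv_on U bv m T hT [], ?_, ?_⟩, ?_⟩
  · intro O hO
    exact cv_eval U bv O m T hO hT [] (fun w b h => by simp at h)
  · intro bv' h
    exact cv_congr U bv bv' m T h hT []
  · intro V t bv hbv
    exact cv_wc t U bv hbv T []

end Pool.Agent.H61.RK
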