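import Pool.Agent.H61.RK.RDW

set_option autoImplicit false

namespace Pool.Agent.H61.RK

open Finset Pool.Agent.H6.NB Pool.Agent.H70.OQ Pool.Agent.H78.XQ Pool.Agent.H70.RK
open Pool.Agent.H70.RC (Term DNF pv fv psat run Bad Arry Right RightP sec)

theorem walk_len {W : Type} (T : TR W) : ∀ (π : List Bool) (x : Option Bool),
    (T.walk π).2 = some x → π.length ≤ T.depth := by
  induction T with
  | leaf o =>
    intro π x hx
    cases π with
    | nil => simp
    | cons b π => simp [TR.walk] at hx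
  | node w l r ihl ihr =>
    intro π x hx
    have h1 : TR.depth (.node w l r) = max l.depth r.depth + 1 := rfl
    have hl := le_max_left l.depth r.depth
    have hr := le_max_right l.depth r.depth
    cases π with
    | nil => simp [TR.walk] at hx
    | cons b π =>
      rw [h1, List.length_cons]
      cases b
      · have := ihl π x hx; omega
      · have := ihr π x hx; omega

theorem sti_inj {X W : Type} (ps : X → W) (w w' : W) (s : X) (h : sti ps w = some s)
    (h' : sti ps w' = some s) : w = w' := by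
  have key : ∀ w, sti ps w = some s → ps s = w := by
    intro w h
    unfold sti at h
    split at h
    · rename_i hx
      rw [← Option.some.inj h]
      exact hx.choose_spec
    · simp at h
  rw [← key w h, ← key w' h']

/-- the numbers -/
theorem gdc_num {Z i m t r K D : ℕ} (hZ : 2 ≤ Z) (hr : r ≤ Z) (hK : K ≤ Z) (hD : D ≤ Z ^ (i + 1))
    (ht : (8 * Z) ^ (i + (m + 1) + 1) ≤ t) : K * m + r * D + 1 ≤ t := by
  have h1 : m < (8 * Z) ^ m := Nat.lt_pow_self (by omega)
  have h2 : r * D ≤ Z ^ (i + 2) := by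
    calc r * D ≤ Z * Z ^ (i + 1) := Nat.mul_le_mul hr hD
      _ = Z ^ (i + 2) := by ring
  have h3 : Z ^ (i + 2) * 8 ^ (i + 2) = (8 * Z) ^ (i + 2) := by rw [mul_pow]; ring
  have h4 : 2 ≤ 8 ^ (i + 2) := by
    calc 2 ≤ 8 ^ 1 := by norm_num
      _ ≤ 8 ^ (i + 2) := Nat.pow_le_pow_right (by norm_num) (by omega)
  have h5 : Z ^ (i + 2) * 2 ≤ (8 * Z) ^ (i + 2) := by
    rw [← h3]; exact Nat.mul_le_mul_left _ h4
  have h6 : 1 ≤ Z ^ (i + 2) := Nat.one_le_pow _ _ (by omega)
  have h7 : Z ^ 1 ≤ Z ^ (i + 2) := Nat.pow_le_pow_right (by omega) (by omega)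
  rw [pow_one] at h7
  have h8 : K * m ≤ (8 * Z) ^ (i + 2) * m := Nat.mul_le_mul_right _ (by omega)
  have h9 : (8 * Z) ^ (i + 2) * (m + 1) ≤ (8 * Z) ^ (i + 2) * (8 * Z) ^ m :=
    Nat.mul_le_mul_left _ (by omega)
  have h10 : (8 * Z) ^ (i + 2) * (8 * Z) ^ m = (8 * Z) ^ (i + (m + 1) + 1) := by
    rw [← pow_add]; congr 1; ring
  have h11 : (8 * Z) ^ (i + 2) * (m + 1) = (8 * Z) ^ (i + 2) * m + (8 * Z) ^ (i + 2) := by ring
  omega

open Classical in
theorem gd_step {V I W : Type} {Ch : I → Type} {m : ℕ} (hGTL : T_GTL)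
    (bv : (V → Bool) → W → Bool) (r D : ℕ) (ps : Ce I Ch (m + 1) → W)
    (h1 : (x : Ce I Ch m) → Ch x.1) (h2 : Hn I Ch m)
    (G : Gt (List ((V → Bool) → TR W)) m) (y : V → Bool) :
    gd (Ch := Ch) (bv y) r (m + 1) D ps (h1, h2)
        (gmap (T := List ((V → Bool) → TR W)) (T' := List (TR W)) (List.map fun τ => τ y) m G) ↔
      (∀ L ∈ gbs (T := List ((V → Bool) → TR W)) m G,
        ¬ Bad (sti (dwn ps h1)) (bv y) (dn D (L.map fun τ => τ y)) r) ∧
      gd (bv y) r m (r * D) (dwn ps h1) h2 (gmap (T := (V → Bool) → TR W) (T' := TR W)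
        (fun τ => τ y) m
          (gmap (T := List ((V → Bool) → TR W)) (T' := (V → Bool) → TR W)
            (stg bv r D (dwn ps h1)) m G)) := by
  classical
  have h3 := hGTL.2.2.2.2.2.2 (List ((V → Bool) → TR W)) ((V → Bool) → TR W) (TR W)
    (stg bv r D (dwn ps h1)) (fun τ => τ y) m G
  have h4 := hGTL.2.2.2.2.2.2 (List ((V → Bool) → TR W)) (List (TR W)) (TR W)
    (List.map fun τ => τ y) (fun L => can (sti (dwn ps h1)) (bv y) (dn D L) r []) m G
  have h6 := hGTL.1 (List ((V → Bool) → TR W)) (List (TR W)) (List.map fun τ => τ y) m G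
  have h5 : gd (Ch := Ch) (bv y) r (m + 1) D ps (h1, h2)
      (gmap (T := List ((V → Bool) → TR W)) (T' := List (TR W)) (List.map fun τ => τ y) m G) ↔
      (∀ L ∈ gbs (T := List (TR W)) m (gmap (T := List ((V → Bool) → TR W)) (T' := List (TR W))
        (List.map (fun τ => τ y)) m G), ¬ Bad (sti (dwn ps h1)) (bv y) (dn D L) r) ∧
      gd (bv y) r m (r * D) (dwn ps h1) h2
    (gmap (T := List (TR W)) (T' := TR W) (fun L => can (sti (dwn ps h1)) (bv y) (dn D L) r []) m
      (gmap (T := List ((V → Bool) → TR W)) (T' := List (TR W)) (List.map (fun τ => τ y)) m G)) :=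
    Iff.rfl
  rw [h5, h4, h3, h6]
  refine and_congr ?_ Iff.rfl
  constructor
  · intro h L hL
    exact h _ (List.mem_map.2 ⟨L, hL, rfl⟩)
  · intro h L hL
    obtain ⟨L', hL', rfl⟩ := List.mem_map.1 hL
    exact h L' hL'

theorem bad_iff {V I W : Type} {Ch : I → Type} {m : ℕ} (hCAN : T_CAN) (hDNS : T_DNS)
    (bv : (V → Bool) → W → Bool) (r D : ℕ) (ps : Ce I Ch m → W)
    (L : List ((V → Bool) → TR W)) (y : V → Bool) :
    (by classical exact Bad (sti ps) (bv y) (dn D (L.map fun τ => τ y)) r) ↔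
      ∃ π ∈ bl (r * D), ((stg bv r D ps L y).walk π).2 = some none := by
  classical
  obtain ⟨h1, _, _, h4, _⟩ := hCAN W (Ce I Ch m) (sti ps) (bv y) (dn D (L.map fun τ => τ y)) r D
    (sti_inj ps) (hDNS W D _).2.2.1
  have h5 : (stg bv r D ps L y) =
    can (sti ps) (bv y) (dn D (L.map fun τ => τ y)) r [] := rfl
  rw [h5]
  constructor
  · intro h
    by_contra hcon
    push Not at hcon
    apply h4.2 _ h
    intro π hπ
    exact hcon π (((hDNS W (r * D) []).2.1 π).2 ((walk_len _ π none hπ).trans h1)) hπ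
  · rintro ⟨π, _, hπ⟩
    by_contra hcon
    exact h4.1 hcon π hπ

theorem gdc_aux (hACL : Pool.Agent.H70.RK.T_ACL)
    (hCLB : Pool.Agent.H6.NB.T_CLB) (hWCS : Pool.Agent.H70.RK.T_WCS)
    (hCAN : Pool.Agent.H70.RK.T_CAN) (hDNS : Pool.Agent.H70.RK.T_DNS)
    (hGTL : Pool.Agent.H70.RK.T_GTL) (V I W : Type) (Ch : I → Type) (Z m t r K S : ℕ)
    (bv : (V → Bool) → W → Bool) (hZ : 2 ≤ Z) (hr : r ≤ Z) (hK : K ≤ Z) (hS : 2 ^ t ≤ S)
    (hbv : Lt bv) :
    ∀ (i j D c : ℕ) (ps : Ce I Ch m → W) (h : Hn I Ch m) (G : Gt ((V → Bool) → TR W) m),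
      D ≤ Z ^ (i + 1) → c ≤ (8 * Z) ^ (i + 1) → (8 * Z) ^ (i + m + 1) ≤ t → gsz (2 ^ K) m G →
      (∀ τ ∈ gbs m G, WC t j c τ) → ∀ f : (V → Bool) → Bool,
      (∀ y, f y = true ↔ ¬ gd (bv y) r m D ps h (gmap (fun τ => τ y) m G)) →
      Cl V S (3 * j + 4 * m + 5) f := by
  classical
  induction m with
  | zero =>
    intro i j D c ps h G hD hc ht hsz hW f hf
    have hf2 : f = fun _ => false := by
      funext y
      have := hf y
      cases hfy : f y
      · rfl
      · exact absurd trivial (this.1 hfy)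
    rw [hf2]
    have h2S : 2 ≤ S := by
      have h1 : 1 ≤ t := (Nat.one_le_pow _ _ (by omega)).trans ht
      calc 2 = 2 ^ 1 := rfl
        _ ≤ 2 ^ t := Nat.pow_le_pow_right (by norm_num) h1
        _ ≤ S := hS
    exact (hCLB V S h2S).1 _ false
  | succ m ih =>
    intro i j D c ps h (G : Gt (List ((V → Bool) → TR W)) m) hD hc ht
      (hsz : gsz (T := List ((V → Bool) → TR W)) (2 ^ K) m G ∧
        ∀ L ∈ gbs (T := List ((V → Bool) → TR W)) m G, L.length ≤ 2 ^ K)
      (hW : ∀ τ ∈ (gbs (T := List ((V → Bool) → TR W)) m G).flatten, WC t j c τ) f hf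
    obtain ⟨h1, h2⟩ := (h : ((x : Ce I Ch m) → Ch x.1) × Hn I Ch m)
    obtain ⟨hn1, hn2, hn3, hn4, hn5⟩ := rdw_num hZ hr hK hD hc ht
    have hn6 := gdc_num hZ hr hK hD ht
    have ht1 : 1 ≤ t := (Nat.one_le_pow _ _ (by omega)).trans ht
    have h2S : 2 ≤ S := by
      calc 2 = 2 ^ 1 := rfl
        _ ≤ 2 ^ t := Nat.pow_le_pow_right (by norm_num) ht1
        _ ≤ S := hS
    have hWs : ∀ L ∈ gbs (T := List ((V → Bool) → TR W)) m G,
        WC t (j + 1) (r * (K + 2 * D + 2 + c)) (stg bv r D (dwn ps h1) L) := by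
      intro L hL
      refine @hWCS V W _ _ t j c K D r _ bv L hbv (hsz.2 L hL) ?_ hn3 hn4
      intro τ' hτ'
      exact hW τ' (List.mem_flatten.2 ⟨L, hL, hτ'⟩)
    have hgate : ∀ L ∈ gbs (T := List ((V → Bool) → TR W)) m G, ∀ π,
        Cl V S (3 * (j + 1) + 4 * m + 5) fun y =>
          decide (((stg bv r D (dwn ps h1) L y).walk π).2 = some none) := by
      intro L hL π
      have h3 := adp_map Prod.snd (hWs L hL π)
      have h4 := hACL V (Option (Option Bool)) t (j + 1) (r * (K + 2 * D + 2 + c)) S _ (some none)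
        h2S hS (le_trans (Nat.pow_le_pow_right (by norm_num)
          (hn2.trans ((Nat.pow_le_pow_right (by omega) (by omega)).trans hn5))) hS) h3
      refine (hCLB V S h2S).2.1 _ _ _ (by omega : 3 * (j + 1) + 2 ≤ _) ?_
      have h5 : (fun y : V → Bool =>
          decide (((stg bv r D (dwn ps h1) L y).walk π).2 = some none)) =
          fun X : V → Bool => @decide (((stg bv r D (dwn ps h1) L X).walk π).2 = some none)
            (Classical.propDecidable _) := by
        funext y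
        simp
      rw [h5]
      exact h4
    have hrec := ih (i + 1) (j + 1) (r * D) (r * (K + 2 * D + 2 + c)) (dwn ps h1) h2
      (gmap (T := List ((V → Bool) → TR W)) (T' := (V → Bool) → TR W)
            (stg bv r D (dwn ps h1)) m G) hn1 hn2 hn5
      ((hGTL.2.1 (List ((V → Bool) → TR W)) ((V → Bool) → TR W) _ _ _ _).2 hsz.1) (by
        intro τ hτ
        rw [hGTL.1 (List ((V → Bool) → TR W)) ((V → Bool) → TR W)] at hτ
        obtain ⟨L, hL, rfl⟩ := List.mem_map.1 hτ
        exact hWs L hL)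
      (fun y => decide (¬ gd (bv y) r m (r * D) (dwn ps h1) h2
        (gmap (T := (V → Bool) → TR W) (T' := TR W) (fun τ => τ y) m
          (gmap (T := List ((V → Bool) → TR W)) (T' := (V → Bool) → TR W)
            (stg bv r D (dwn ps h1)) m G)))) (fun y => by simp)
    have hlen : (gbs (T := List ((V → Bool) → TR W)) m G).length ≤ (2 ^ K) ^ m :=
      hGTL.2.2.1 (List ((V → Bool) → TR W)) _ _ _ hsz.1
    have hlen2 : (bl (r * D)).length + 1 ≤ 2 ^ (r * D + 1) := (hDNS W (r * D) []).1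
    rw [show 3 * j + 4 * (m + 1) + 5 = 3 * (j + 1) + 4 * m + 5 + 1 by ring]
    refine (hCLB V S h2S).2.2.2.1 _
      ((fun y => decide (¬ gd (bv y) r m (r * D) (dwn ps h1) h2
        (gmap (T := (V → Bool) → TR W) (T' := TR W) (fun τ => τ y) m
          (gmap (T := List ((V → Bool) → TR W)) (T' := (V → Bool) → TR W)
            (stg bv r D (dwn ps h1)) m G))), true) ::
        (List.product (gbs (T := List ((V → Bool) → TR W)) m G) (bl (r * D))).map fun p =>
          ((fun y => decide (((stg bv r D (dwn ps h1) p.1 y).walk p.2).2 = some none)), true))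
      f ?_ ?_ ?_
    · rw [List.length_cons, List.length_map]
      have h3 : (List.product (gbs (T := List ((V → Bool) → TR W)) m G) (bl (r * D))).length =
        (gbs (T := List ((V → Bool) → TR W)) m G).length * (bl (r * D)).length :=
        List.length_product _ _
      rw [h3]
      have h4 : (gbs (T := List ((V → Bool) → TR W)) m G).length * (bl (r * D)).length ≤
        (2 ^ K) ^ m * (bl (r * D)).length := Nat.mul_le_mul_right _ hlen
      have h5 : (2 ^ K) ^ m * ((bl (r * D)).length + 1) ≤ (2 ^ K) ^ m * 2 ^ (r * D + 1) :=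
        Nat.mul_le_mul_left _ hlen2
      have h6 : (2 ^ K) ^ m * 2 ^ (r * D + 1) = 2 ^ (K * m + r * D + 1) := by
        rw [← pow_mul, ← pow_add]; congr 1
      have h7 : 2 ^ (K * m + r * D + 1) ≤ 2 ^ t := Nat.pow_le_pow_right (by norm_num) hn6
      have h8 : 1 ≤ (2 ^ K) ^ m := Nat.one_le_pow _ _ (by positivity)
      have h9 : (2 ^ K) ^ m * ((bl (r * D)).length + 1) =
        (2 ^ K) ^ m * (bl (r * D)).length + (2 ^ K) ^ m := by ring
      omega
    · intro q hq
      rcases List.mem_cons.1 hq with rfl | hq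
      · exact hrec
      · obtain ⟨p, hp, rfl⟩ := List.mem_map.1 hq
        exact hgate p.1 (List.pair_mem_product.1 hp).1 p.2
    · intro y
      rw [hf y]
      have h3 : gd (Ch := Ch) (bv y) r (m + 1) D ps (h1, h2)
          (gmap (T := (V → Bool) → TR W) (T' := TR W) (fun τ => τ y) (m + 1) G) ↔ _ :=
        gd_step hGTL bv r D ps h1 h2 G y
      rw [h3]
      constructor
      · intro h4
        by_cases h5 : gd (bv y) r m (r * D) (dwn ps h1) h2
            (gmap (T := (V → Bool) → TR W) (T' := TR W) (fun τ => τ y) m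
            (gmap (T := List ((V → Bool) → TR W)) (T' := (V → Bool) → TR W)
            (stg bv r D (dwn ps h1)) m G))
        · have h6 : ¬ ∀ L ∈ gbs (T := List ((V → Bool) → TR W)) m G,
              ¬ Bad (sti (dwn ps h1)) (bv y) (dn D (L.map fun τ => τ y)) r :=
            fun h7 => h4 ⟨h7, h5⟩
          push Not at h6
          obtain ⟨L, hL, h8⟩ := h6
          obtain ⟨π, hπ, h9⟩ := (bad_iff hCAN hDNS bv r D (dwn ps h1) L y).1 h8
          refine ⟨_, List.mem_cons_of_mem _ (List.mem_map.2 ⟨(L, π),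
            List.pair_mem_product.2 ⟨hL, hπ⟩, rfl⟩), ?_⟩
          simpa using h9
        · refine ⟨_, List.mem_cons_self, ?_⟩
          simpa using h5
      · rintro ⟨q, hq, hqy⟩ ⟨h5, h6⟩
        rcases List.mem_cons.1 hq with rfl | hq
        · simp only [decide_eq_true_eq] at hqy
          exact hqy h6
        · obtain ⟨p, hp, rfl⟩ := List.mem_map.1 hq
          simp only [decide_eq_true_eq] at hqy
          have hp' := List.pair_mem_product.1 hp
          exact h5 p.1 hp'.1 ((bad_iff hCAN hDNS bv r D (dwn ps h1) p.1 y).2 ⟨p.2, hp'.2, hqy⟩)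

theorem pf_GDC (hACL : Pool.Agent.H70.RK.T_ACL)
    (hCLB : Pool.Agent.H6.NB.T_CLB) (hWCS : Pool.Agent.H70.RK.T_WCS)
    (hCAN : Pool.Agent.H70.RK.T_CAN) (hDNS : Pool.Agent.H70.RK.T_DNS)
    (hGTL : Pool.Agent.H70.RK.T_GTL) : Pool.Agent.H70.RK.T_GDC := by
  classical
  intro V I W Ch Z i m j t r K D c S bv ps h G _ hZ hr hK hD hc ht hS hbv hsz hW
  have h2S : 2 ≤ S := by
    have h1 : 1 ≤ t := (Nat.one_le_pow _ _ (by omega)).trans ht
    calc 2 = 2 ^ 1 := rfl
      _ ≤ 2 ^ t := Nat.pow_le_pow_right (by norm_num) h1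
      _ ≤ S := hS
  have h1 := gdc_aux hACL hCLB hWCS hCAN hDNS hGTL V I W Ch Z m t r K S bv hZ hr hK hS hbv i j D c
    ps h G hD hc ht hsz hW (fun y => decide (¬ gd (bv y) r m D ps h (gmap (fun τ => τ y) m G)))
    (fun y => by simp)
  have h2 : Cl V S (4 * (j + m) + 5) (fun y => decide (¬ gd (bv y) r m D ps h
      (gmap (fun τ => τ y) m G))) := (hCLB V S h2S).2.1 _ _ _ (by omega) h1
  refine (hCLB V S h2S).2.2.2.1 (4 * (j + m) + 5) [((fun y => decide (¬ gd (bv y) r m D ps h
      (gmap (fun τ => τ y) m G))), false)] _ ?_ ?_ ?_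
  · simp only [List.length_cons, List.length_nil]; omega
  · intro q hq
    rw [List.mem_singleton] at hq
    subst hq
    exact h2
  · intro y
    simp

end Pool.Agent.H61.RK
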