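import Pool.Agent.H61.RK.CVF

set_option autoImplicit false

namespace Pool.Agent.H61.RK

open Finset Pool.Agent.H6.NB Pool.Agent.H70.OQ Pool.Agent.H78.XQ Pool.Agent.H70.RK
open Pool.Agent.H70.RC (Term DNF pv fv psat run Bad Arry Right RightP sec)

/-- the numbers of one stage -/
theorem rdw_num {Z i m t r K D c : ℕ} (hZ : 2 ≤ Z) (hr : r ≤ Z) (hK : K ≤ Z) (hD : D ≤ Z ^ (i + 1))
    (hc : c ≤ (8 * Z) ^ (i + 1)) (ht : (8 * Z) ^ (i + (m + 1) + 1) ≤ t) :
    r * D ≤ Z ^ (i + 1 + 1) ∧ r * (K + 2 * D + 2 + c) ≤ (8 * Z) ^ (i + 1 + 1) ∧ c + D ≤ t ∧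
      K + D + 1 ≤ t ∧ (8 * Z) ^ (i + 1 + m + 1) ≤ t := by
  have h1 : Z ^ 1 ≤ Z ^ (i + 1) := Nat.pow_le_pow_right (by omega) (by omega)
  rw [pow_one] at h1
  have h2 : Z ^ (i + 1) ≤ (8 * Z) ^ (i + 1) := Nat.pow_le_pow_left (by omega) _
  have h3 : (8 * Z) ^ (i + 1 + 1) = 8 * Z * (8 * Z) ^ (i + 1) := by ring
  have h4 : (8 * Z) ^ (i + 1 + 1) ≤ t :=
    (Nat.pow_le_pow_right (by omega) (by omega)).trans ht
  have h5 : 2 * (8 * (8 * Z) ^ (i + 1)) ≤ Z * (8 * (8 * Z) ^ (i + 1)) :=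
    Nat.mul_le_mul_right _ hZ
  have h6 : 16 * (8 * Z) ^ (i + 1) ≤ (8 * Z) ^ (i + 1 + 1) := by
    calc 16 * (8 * Z) ^ (i + 1) = 2 * (8 * (8 * Z) ^ (i + 1)) := by ring
      _ ≤ Z * (8 * (8 * Z) ^ (i + 1)) := h5
      _ = (8 * Z) ^ (i + 1 + 1) := by ring
  refine ⟨?_, ?_, by omega, by omega, ?_⟩
  · calc r * D ≤ Z * Z ^ (i + 1) := Nat.mul_le_mul hr hD
      _ = Z ^ (i + 1 + 1) := by ring
  · calc r * (K + 2 * D + 2 + c) ≤ Z * (8 * (8 * Z) ^ (i + 1)) :=
          Nat.mul_le_mul hr (by omega)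
      _ = (8 * Z) ^ (i + 1 + 1) := by ring
  · rw [show i + 1 + m + 1 = i + (m + 1) + 1 by ring]
    exact ht

open Classical in
/-- the tree of a level one gate after one stage -/
noncomputable def stg {V I W : Type} {Ch : I → Type} {m : ℕ} (bv : (V → Bool) → W → Bool)
    (r D : ℕ) (ps : Ce I Ch m → W) (L : List ((V → Bool) → TR W)) (y : V → Bool) : TR W :=
  can (sti ps) (bv y) (dn D (L.map fun τ => τ y)) r []

/-- one stage of the reduction -/
theorem red_step {V I W : Type} {Ch : I → Type} {m : ℕ} (hGTL : T_GTL)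
    (bv : (V → Bool) → W → Bool) (r D : ℕ) (ps : Ce I Ch (m + 1) → W)
    (h1 : (x : Ce I Ch m) → Ch x.1) (h2 : Hn I Ch m)
    (G : Gt (List ((V → Bool) → TR W)) m) (y : V → Bool) :
    red (Ch := Ch) (bv y) r (m + 1) D ps (h1, h2)
        (gmap (T := List ((V → Bool) → TR W)) (T' := List (TR W)) (List.map fun τ => τ y) m G) =
      red (bv y) r m (r * D) (dwn ps h1) h2 (gmap (T := (V → Bool) → TR W) (T' := TR W)
        (fun τ => τ y) m
          (gmap (T := List ((V → Bool) → TR W)) (T' := (V → Bool) → TR W)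
            (stg bv r D (dwn ps h1)) m G)) := by
  classical
  have h3 := hGTL.2.2.2.2.2.2 (List ((V → Bool) → TR W)) ((V → Bool) → TR W) (TR W)
    (stg bv r D (dwn ps h1)) (fun τ => τ y) m G
  have h4 := hGTL.2.2.2.2.2.2 (List ((V → Bool) → TR W)) (List (TR W)) (TR W)
    (List.map fun τ => τ y) (fun L => can (sti (dwn ps h1)) (bv y) (dn D L) r []) m G
  have h5 : red (Ch := Ch) (bv y) r (m + 1) D ps (h1, h2)
      (gmap (T := List ((V → Bool) → TR W)) (T' := List (TR W)) (List.map fun τ => τ y) m G) =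
      red (bv y) r m (r * D) (dwn ps h1) h2
    (gmap (T := List (TR W)) (T' := TR W) (fun L => can (sti (dwn ps h1)) (bv y) (dn D L) r []) m
      (gmap (T := List ((V → Bool) → TR W)) (T' := List (TR W)) (List.map (fun τ => τ y)) m G)) :=
    rfl
  rw [h5, h4, h3]
  rfl

theorem pf_RDW (hWCS : Pool.Agent.H70.RK.T_WCS) (hGTL : Pool.Agent.H70.RK.T_GTL) :
    Pool.Agent.H70.RK.T_RDW := by
  classical
  intro V I W Ch Z i m
  induction m generalizing i with
  | zero =>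
    intro j t r K D c bv ps h G hZ hr hK hD hc ht hbv hsz hW π
    have h1 : WC t j c G := hW G (by show G ∈ [G]; simp)
    exact adp_mono (h1 π) hc
  | succ m ih =>
    intro j t r K D c bv ps h (G : Gt (List ((V → Bool) → TR W)) m) hZ hr hK hD hc ht hbv
      (hsz : gsz (T := List ((V → Bool) → TR W)) (2 ^ K) m G ∧
        ∀ L ∈ gbs (T := List ((V → Bool) → TR W)) m G, L.length ≤ 2 ^ K)
      (hW : ∀ τ ∈ (gbs (T := List ((V → Bool) → TR W)) m G).flatten, WC t j c τ)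
    obtain ⟨h1, h2⟩ := (h : ((x : Ce I Ch m) → Ch x.1) × Hn I Ch m)
    obtain ⟨hn1, hn2, hn3, hn4, hn5⟩ := rdw_num hZ hr hK hD hc ht
    have h3 := ih (i + 1) (j + 1) t r K (r * D) (r * (K + 2 * D + 2 + c)) bv (dwn ps h1) h2
      (gmap (T := List ((V → Bool) → TR W)) (T' := (V → Bool) → TR W)
            (stg bv r D (dwn ps h1)) m G) hZ hr hK hn1 hn2
      hn5 hbv ((hGTL.2.1 (List ((V → Bool) → TR W)) ((V → Bool) → TR W) _ _ _ _).2 hsz.1) (by
        intro τ hτ
        rw [hGTL.1 (List ((V → Bool) → TR W)) ((V → Bool) → TR W)] at hτ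
        obtain ⟨L, hL, rfl⟩ := List.mem_map.1 hτ
        refine @hWCS V W _ _ t j c K D r _ bv L hbv (hsz.2 L hL) ?_ hn3 hn4
        intro τ' hτ'
        exact hW τ' (List.mem_flatten.2 ⟨L, hL, hτ'⟩))
    intro π
    have h5 := h3 π
    rw [show i + (m + 1) + 1 = i + 1 + m + 1 by ring, show j + (m + 1) = j + 1 + m by ring]
    have h4 : (fun X : V → Bool => (red (Ch := Ch) (bv X) r (m + 1) D ps (h1, h2)
        (gmap (T := List ((V → Bool) → TR W)) (T' := List (TR W)) (List.map fun τ => τ X) m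
          G)).walk π) =
        fun X => (red (bv X) r m (r * D) (dwn ps h1) h2 (gmap (T := (V → Bool) → TR W)
          (T' := TR W) (fun τ => τ X) m
          (gmap (T := List ((V → Bool) → TR W)) (T' := (V → Bool) → TR W)
            (stg bv r D (dwn ps h1)) m G))).walk π := by
      funext X
      rw [red_step hGTL]
    show Adp _ _ (fun X : V → Bool => (red (Ch := Ch) (bv X) r (m + 1) D ps (h1, h2)
        (gmap (T := List ((V → Bool) → TR W)) (T' := List (TR W)) (List.map fun τ => τ X) m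
          G)).walk π)
    rw [h4]
    exact h5

end Pool.Agent.H61.RK
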